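import Mathlib
import Pool.Agent.TH278.DX.Defs2
set_option autoImplicit false

/-! Job 4948 (helper278, MP_d7f3a3_an): Kesten's theorem: a nonamenable group has finitely
supported symmetric probabilities whose right convolution operator has small norm. -/

namespace Pool.Agent.TH542.J4948

open scoped ENNReal

variable {G : Type}

abbrev L2 (G : Type) := lp (fun _ : G => ℝ) 2

theorem memlp {f : G → ℝ} (h : Summable fun i => (f i) ^ 2) : Memℓp (E := fun _ : G => ℝ) f 2 := by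
  apply memℓp_gen
  refine h.congr ?_
  intro i
  simp

theorem summable_sq (u : L2 G) : Summable fun i => (u i) ^ 2 := by
  have h := (memℓp_gen_iff (p := 2) (by norm_num)).1 (lp.memℓp u)
  refine h.congr ?_
  intro i
  simp

theorem norm_sq (u : L2 G) : ‖u‖ ^ 2 = ∑' i, (u i) ^ 2 := by
  have h := lp.norm_rpow_eq_tsum (p := 2) (by norm_num) u
  simpa using h

theorem norm_le_of {u v : L2 G} (h : ∀ i, |u i| ≤ |v i|) : ‖u‖ ≤ ‖v‖ := by
  have h1 : ‖u‖ ^ 2 ≤ ‖v‖ ^ 2 := by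
    rw [norm_sq, norm_sq]
    refine (summable_sq u).tsum_le_tsum (fun i => ?_) (summable_sq v)
    exact sq_le_sq.2 (h i)
  exact le_of_sq_le_sq h1 (norm_nonneg _) 

/-- the absolute value -/
noncomputable def ab (u : L2 G) : L2 G :=
  ⟨fun i => |u i|, memlp (by simpa using summable_sq u)⟩

@[simp] theorem ab_apply (u : L2 G) (i : G) : ab u i = |u i| := rfl

theorem norm_ab (u : L2 G) : ‖ab u‖ = ‖u‖ :=
  le_antisymm (norm_le_of (by simp)) (norm_le_of (by simp))

variable [Group G]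

/-- right translation -/
noncomputable def Rl (g : G) : L2 G →ₗ[ℝ] L2 G where
  toFun u := ⟨fun s => u (s * g), memlp ((Equiv.mulRight g).summable_iff.2 (summable_sq u))⟩
  map_add' u v := by
    ext s
    rfl
  map_smul' c u := by
    ext s
    rfl

theorem Rl_apply (g : G) (u : L2 G) (s : G) : Rl g u s = u (s * g) := rfl

theorem norm_Rl (g : G) (u : L2 G) : ‖Rl g u‖ = ‖u‖ := by
  have h1 : ‖Rl g u‖ ^ 2 = ‖u‖ ^ 2 := by
    rw [norm_sq, norm_sq]
    exact (Equiv.mulRight g).tsum_eq (fun i => (u i) ^ 2)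
  exact (sq_eq_sq₀ (norm_nonneg _) (norm_nonneg _)).1 h1

noncomputable def Rc (g : G) : L2 G →L[ℝ] L2 G :=
  LinearMap.mkContinuous (Rl g) 1 (fun u => by rw [norm_Rl, one_mul])

theorem Rc_apply (g : G) (u : L2 G) (s : G) : Rc g u s = u (s * g) := rfl

theorem norm_Rc (g : G) (u : L2 G) : ‖Rc g u‖ = ‖u‖ := norm_Rl g u

noncomputable def R : G →* (L2 G →L[ℝ] L2 G) where
  toFun := Rc
  map_one' := by
    ext u s
    simp [Rc_apply]
  map_mul' g h := by
    ext u s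
    simp [Rc_apply, mul_assoc]

theorem R_apply (g : G) (u : L2 G) (s : G) : R g u s = u (s * g) := rfl

theorem norm_R (g : G) (u : L2 G) : ‖R g u‖ = ‖u‖ := norm_Rl g u

/-- the convolution operator -/
noncomputable def T (F : MonoidAlgebra ℝ G) : L2 G →L[ℝ] L2 G := MonoidAlgebra.lift ℝ _ G R F

theorem T_eq (F : MonoidAlgebra ℝ G) : T F = F.coeff.sum fun g r => r • R g :=
  MonoidAlgebra.lift_apply _ _

theorem T_pow (F : MonoidAlgebra ℝ G) (n : ℕ) : T (F ^ n) = T F ^ n := map_pow _ _ _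

theorem T_apply (F : MonoidAlgebra ℝ G) (u : L2 G) (s : G) :
    T F u s = F.coeff.sum fun g r => r * u (s * g) := by
  rw [T_eq]
  unfold Finsupp.sum
  rw [_root_.sum_apply, lp.coeFn_sum, Finset.sum_apply]
  rfl


/-- the uniform probability on `S` -/
noncomputable def mu (S : Finset G) : MonoidAlgebra ℝ G :=
  (S.card : ℝ)⁻¹ • ∑ s ∈ S, MonoidAlgebra.single s 1

theorem T_mu (S : Finset G) (u : L2 G) : T (mu S) u = (S.card : ℝ)⁻¹ • ∑ s ∈ S, R s u := by
  unfold T mu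
  rw [map_smul, map_sum]
  simp [MonoidAlgebra.lift_single]

theorem almost (S : Finset G) (h1 : (1 : G) ∈ S) (h : 1 ≤ ‖T (mu S)‖) (ε : ℝ) (hε : 0 < ε) :
    ∃ u : L2 G, ‖u‖ = 1 ∧ ∀ s ∈ S, ‖R s u - u‖ ≤ ε := by
  classical
  have hcard : 1 ≤ (S.card : ℝ) := by
    exact_mod_cast Finset.card_pos.2 ⟨1, h1⟩
  set n : ℝ := (S.card : ℝ) with hn
  have hn0 : 0 < n := by linarith
  set η : ℝ := min (ε ^ 2 / 4) 1 with hη
  have hη0 : 0 < η := lt_min (by positivity) one_pos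
  have hη1 : η ≤ 1 := min_le_right _ _
  have hη2 : 4 * η ≤ ε ^ 2 := by
    have := min_le_left (ε ^ 2 / 4) 1
    linarith
  set c : ℝ := 1 - η / n with hc
  have hc0 : 0 ≤ c := by
    have : η / n ≤ 1 := by
      rw [div_le_one hn0]; linarith
    linarith
  have hc1 : c < 1 := by
    have : 0 < η / n := by positivity
    linarith
  obtain ⟨w, hw⟩ : ∃ w : L2 G, c * ‖w‖ < ‖T (mu S) w‖ := by
    by_contra hcon
    push Not at hcon
    have := (T (mu S)).opNorm_le_bound hc0 hcon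
    linarith
  have hw0 : 0 < ‖w‖ := by
    rw [norm_pos_iff]
    rintro rfl
    simp at hw
  set u : L2 G := ‖w‖⁻¹ • w with hu
  have hu1 : ‖u‖ = 1 := by
    rw [hu, norm_smul, norm_inv, norm_norm, inv_mul_cancel₀ hw0.ne']
  have hu2 : c < ‖T (mu S) u‖ := by
    rw [hu, map_smul, norm_smul, norm_inv, norm_norm, inv_mul_eq_div, lt_div_iff₀ hw0]
    exact hw
  have hu3 : n - η < ‖∑ s ∈ S, R s u‖ := by
    rw [T_mu, norm_smul, norm_inv, ← hn, Real.norm_of_nonneg hn0.le, inv_mul_eq_div,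
      lt_div_iff₀ hn0] at hu2
    have : c * n = n - η := by
      rw [hc]; field_simp
    linarith
  refine ⟨u, hu1, fun s hs => ?_⟩
  by_cases hs1 : s = 1
  · subst hs1
    simp [hε.le]
  · have hs' : s ∈ S.erase 1 := Finset.mem_erase.2 ⟨hs1, hs⟩
    have e1 : ∑ t ∈ S, R t u = R 1 u + (R s u + ∑ t ∈ (S.erase 1).erase s, R t u) := by
      rw [Finset.add_sum_erase _ (fun t => R t u) hs', Finset.add_sum_erase _ (fun t => R t u) h1]
    have e2 : ‖∑ t ∈ (S.erase 1).erase s, R t u‖ ≤ n - 2 := by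
      refine (norm_sum_le _ _).trans ?_
      rw [Finset.sum_congr rfl (fun t _ => (norm_R t u).trans hu1)]
      rw [Finset.sum_const, nsmul_eq_mul, mul_one, Finset.card_erase_of_mem hs',
        Finset.card_erase_of_mem h1]
      have h2 : 2 ≤ S.card := by
        have := Finset.card_pos.2 ⟨s, hs'⟩
        rw [Finset.card_erase_of_mem h1] at this
        omega
      rw [hn]
      have : ((S.card - 1 - 1 : ℕ) : ℝ) = (S.card : ℝ) - 2 := by
        rw [Nat.sub_sub, Nat.cast_sub h2]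
        norm_num
      rw [this]
    have e3 : 2 - η ≤ ‖u + R s u‖ := by
      have : ‖∑ t ∈ S, R t u‖ ≤ ‖u + R s u‖ + (n - 2) := by
        rw [e1, map_one, ContinuousLinearMap.one_apply, ← add_assoc]
        exact (norm_add_le _ _).trans (by linarith)
      linarith
    have e4 := parallelogram_law_with_norm ℝ u (R s u)
    rw [norm_R, hu1] at e4
    have e5 : ‖u - R s u‖ ^ 2 ≤ ε ^ 2 := by
      have h5 : (2 - η) ^ 2 ≤ ‖u + R s u‖ ^ 2 := by
        apply pow_le_pow_left₀ (by linarith) e3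
      nlinarith
    rw [norm_sub_rev]
    exact le_of_sq_le_sq e5 hε.le

/-- the approximate mean -/
noncomputable def M (u : L2 G) (f : G → ℝ) : ℝ := ∑' x, f x⁻¹ * (u x) ^ 2

theorem summable_M (u : L2 G) {f : G → ℝ} (hf : ∃ C, ∀ x, |f x| ≤ C) :
    Summable fun x => f x⁻¹ * (u x) ^ 2 := by
  obtain ⟨C, hC⟩ := hf
  refine Summable.of_norm_bounded ((summable_sq u).mul_left C) (fun x => ?_)
  rw [norm_mul, Real.norm_eq_abs, Real.norm_of_nonneg (sq_nonneg _)]
  exact mul_le_mul_of_nonneg_right (hC _) (sq_nonneg _)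

theorem M_add (u : L2 G) {f h : G → ℝ} (hf : ∃ C, ∀ x, |f x| ≤ C) (hh : ∃ C, ∀ x, |h x| ≤ C) :
    M u (fun x => f x + h x) = M u f + M u h := by
  unfold M
  rw [← (summable_M u hf).tsum_add (summable_M u hh)]
  exact tsum_congr fun x => add_mul _ _ _

theorem M_smul (u : L2 G) (r : ℝ) (f : G → ℝ) : M u (fun x => r * f x) = r * M u f := by
  unfold M
  rw [← tsum_mul_left]
  exact tsum_congr fun x => mul_assoc _ _ _

theorem M_nonneg (u : L2 G) {f : G → ℝ} (hf : ∀ x, 0 ≤ f x) : 0 ≤ M u f :=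
  tsum_nonneg fun x => mul_nonneg (hf _) (sq_nonneg _)

theorem M_one (u : L2 G) (hu : ‖u‖ = 1) : M u (fun _ => 1) = 1 := by
  unfold M
  simp only [one_mul]
  rw [← norm_sq, hu, one_pow]

theorem M_abs (u : L2 G) (hu : ‖u‖ = 1) {f : G → ℝ} {C : ℝ} (hf : ∀ x, |f x| ≤ C) :
    |M u f| ≤ C := by
  have h1 : ∑' x, C * (u x) ^ 2 = C := by
    rw [tsum_mul_left, ← norm_sq, hu, one_pow, mul_one]
  unfold M
  rw [← h1, ← Real.norm_eq_abs]
  refine tsum_of_norm_bounded ((summable_sq u).mul_left C).hasSum (fun x => ?_)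
  rw [norm_mul, Real.norm_eq_abs, Real.norm_of_nonneg (sq_nonneg _)]
  exact mul_le_mul_of_nonneg_right (hf _) (sq_nonneg _)

theorem M_shift (u : L2 G) (g : G) (f : G → ℝ) :
    M u (fun x => f (g⁻¹ * x)) = M (R g⁻¹ u) f := by
  unfold M
  rw [← (Equiv.mulRight g⁻¹).tsum_eq (fun x => f (g⁻¹ * x⁻¹) * (u x) ^ 2)]
  refine tsum_congr fun x => ?_
  rw [R_apply]
  simp

theorem M_diff (u v : L2 G) (hu : ‖u‖ = 1) (hv : ‖v‖ = 1) {f : G → ℝ} {C ε : ℝ}
    (hf : ∀ x, |f x| ≤ C) (hε : 0 < ε) (h : ‖v - u‖ ≤ ε) : |M v f - M u f| ≤ C * (3 * ε) := by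
  have hC : 0 ≤ C := (abs_nonneg _).trans (hf 1)
  have s1 := (summable_sq (v - u)).mul_left (1 / (2 * ε))
  have s2 := (summable_sq (v + u)).mul_left (ε / 2)
  have s3 := (s1.add s2).mul_left C
  have e1 : M v f - M u f = ∑' x, (f x⁻¹ * (v x) ^ 2 - f x⁻¹ * (u x) ^ 2) :=
    ((summable_M v ⟨C, hf⟩).tsum_sub (summable_M u ⟨C, hf⟩)).symm
  have e2 : |M v f - M u f| ≤ ∑' x, C * (1 / (2 * ε) * ((v - u) x) ^ 2 + ε / 2 * ((v + u) x) ^ 2) := by
    rw [e1, ← Real.norm_eq_abs]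
    refine tsum_of_norm_bounded s3.hasSum (fun x => ?_)
    rw [← mul_sub, norm_mul, Real.norm_eq_abs, Real.norm_eq_abs]
    refine mul_le_mul (hf _) ?_ (abs_nonneg _) hC
    rw [lp.coeFn_sub, lp.coeFn_add, Pi.sub_apply, Pi.add_apply]
    have h3 : v x ^ 2 - u x ^ 2 = (v x - u x) * (v x + u x) := by ring
    rw [h3]
    set a := v x - u x
    set b := v x + u x
    have h4 : 1 / (2 * ε) * a ^ 2 + ε / 2 * b ^ 2 - a * b = (a - ε * b) ^ 2 / (2 * ε) := by
      field_simp; ring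
    have h5 : 1 / (2 * ε) * a ^ 2 + ε / 2 * b ^ 2 + a * b = (a + ε * b) ^ 2 / (2 * ε) := by
      field_simp; ring
    have h6 : 0 ≤ (a - ε * b) ^ 2 / (2 * ε) := by positivity
    have h7 : 0 ≤ (a + ε * b) ^ 2 / (2 * ε) := by positivity
    rw [abs_le]
    constructor <;> linarith
  refine e2.trans ?_
  rw [tsum_mul_left, s1.tsum_add s2, tsum_mul_left, tsum_mul_left, ← norm_sq, ← norm_sq]
  refine mul_le_mul_of_nonneg_left ?_ hC
  have h8 : ‖v - u‖ ^ 2 ≤ ε ^ 2 := pow_le_pow_left₀ (norm_nonneg _) h 2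
  have h9 : ‖v + u‖ ≤ 2 := (norm_add_le _ _).trans (by linarith)
  have h10 : ‖v + u‖ ^ 2 ≤ 2 ^ 2 := pow_le_pow_left₀ (norm_nonneg _) h9 2
  have h11 : 1 / (2 * ε) * ‖v - u‖ ^ 2 ≤ 1 / (2 * ε) * ε ^ 2 :=
    mul_le_mul_of_nonneg_left h8 (by positivity)
  have h12 : 1 / (2 * ε) * ε ^ 2 = ε / 2 := by field_simp
  have h13 : ε / 2 * ‖v + u‖ ^ 2 ≤ ε / 2 * 2 ^ 2 :=
    mul_le_mul_of_nonneg_left h10 (by positivity)
  linarith

open Filter Topology in
theorem amenable_of (H : ∀ (S : Finset G) (ε : ℝ), 0 < ε →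
    ∃ u : L2 G, ‖u‖ = 1 ∧ ∀ s ∈ S, ‖R s u - u‖ ≤ ε) : Pool.Agent.TH278.DX.Amenable G := by
  classical
  have H' : ∀ i : Finset G × ℕ, ∃ u : L2 G, ‖u‖ = 1 ∧ ∀ s ∈ i.1, ‖R s u - u‖ ≤ 1 / ((i.2 : ℝ) + 1) :=
    fun i => H i.1 _ (by positivity)
  choose u hu1 hu2 using H'
  set U : Ultrafilter (Finset G × ℕ) := Ultrafilter.of atTop with hU
  have hUle : (U : Filter (Finset G × ℕ)) ≤ atTop := Ultrafilter.of_le _
  have lim : ∀ f : G → ℝ, (∃ C, ∀ x, |f x| ≤ C) →
      Tendsto (fun i => M (u i) f) U (𝓝 (limUnder (U : Filter (Finset G × ℕ)) (fun i => M (u i) f))) := by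
    intro f ⟨C, hC⟩
    apply tendsto_nhds_limUnder
    have hc : IsCompact (Set.Icc (-C) C) := isCompact_Icc
    obtain ⟨l, -, hl⟩ := hc.ultrafilter_le_nhds (U.map fun i => M (u i) f) (by
      rw [le_principal_iff]
      refine Filter.Eventually.of_forall (f := (U : Filter (Finset G × ℕ))) (fun i => ?_)
      exact abs_le.1 (M_abs (u i) (hu1 i) hC))
    exact ⟨l, hl⟩
  refine ⟨fun f => limUnder (U : Filter (Finset G × ℕ)) (fun i => M (u i) f), ?_, ?_, ?_, ?_, ?_⟩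
  · intro f h hf hh
    refine Tendsto.limUnder_eq ?_
    refine ((lim f hf).add (lim h hh)).congr (fun i => ?_)
    exact (M_add (u i) hf hh).symm
  · intro r f hf
    refine Tendsto.limUnder_eq ?_
    refine ((lim f hf).const_mul r).congr (fun i => ?_)
    exact (M_smul (u i) r f).symm
  · intro f hf hf0
    exact ge_of_tendsto' (lim f hf) (fun i => M_nonneg (u i) hf0)
  · refine Tendsto.limUnder_eq ?_
    refine tendsto_const_nhds.congr (fun i => ?_)
    exact (M_one (u i) (hu1 i)).symm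
  · intro g f hf
    obtain ⟨C, hC⟩ := hf
    refine Tendsto.limUnder_eq ?_
    have key : Tendsto (fun i => M (u i) (fun x => f (g⁻¹ * x)) - M (u i) f) U (𝓝 0) := by
      have h0 : Tendsto (fun i : Finset G × ℕ => C * (3 * (1 / ((i.2 : ℝ) + 1)))) atTop (𝓝 0) := by
        have h1 : Tendsto (fun n : ℕ => C * (3 * (1 / ((n : ℝ) + 1)))) atTop (𝓝 (C * (3 * 0))) :=
          (tendsto_one_div_add_atTop_nhds_zero_nat.const_mul 3).const_mul C
        simp only [mul_zero] at h1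
        rw [← prod_atTop_atTop_eq]
        exact h1.comp tendsto_snd
      refine squeeze_zero_norm' ?_ (h0.mono_left hUle)
      have hev : ∀ᶠ i : Finset G × ℕ in atTop, g⁻¹ ∈ i.1 := by
        filter_upwards [eventually_ge_atTop (({g⁻¹}, 0) : Finset G × ℕ)] with i hi
        exact hi.1 (Finset.mem_singleton_self _)
      filter_upwards [hUle hev] with i hi
      rw [Real.norm_eq_abs, M_shift]
      exact M_diff (u i) (R g⁻¹ (u i)) (hu1 i) ((norm_R _ _).trans (hu1 i)) hC (by positivity)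
        (hu2 i _ hi)
    have := key.add (lim f ⟨C, hC⟩)
    simpa using this

theorem coeff_nonneg_mul {x y : MonoidAlgebra ℝ G} (hx : ∀ g, 0 ≤ x.coeff g)
    (hy : ∀ g, 0 ≤ y.coeff g) (g : G) : 0 ≤ (x * y).coeff g := by
  rw [MonoidAlgebra.coeff_mul_apply_left]
  exact Finset.sum_nonneg fun h _ => mul_nonneg (hx _) (hy _)

theorem coeff_symm_mul {x y : MonoidAlgebra ℝ G} (hx : ∀ g, x.coeff g⁻¹ = x.coeff g)
    (hy : ∀ g, y.coeff g⁻¹ = y.coeff g) (hxy : y * x = x * y) (g : G) :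
    (x * y).coeff g⁻¹ = (x * y).coeff g := by
  conv_rhs => rw [← hxy]
  rw [MonoidAlgebra.coeff_mul_apply_left, MonoidAlgebra.coeff_mul_apply_right]
  unfold Finsupp.sum
  refine Finset.sum_nbij' (fun h => h⁻¹) (fun h => h⁻¹) ?_ ?_ ?_ ?_ ?_
  · intro h hh
    rw [Finsupp.mem_support_iff] at hh ⊢
    rwa [hx]
  · intro h hh
    rw [Finsupp.mem_support_iff] at hh ⊢
    rwa [hx]
  · intro h _
    simp
  · intro h _
    simp
  · intro h _
    show x.coeff h * y.coeff (h⁻¹ * g⁻¹) = y.coeff (g * h⁻¹⁻¹) * x.coeff h⁻¹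
    rw [hx, inv_inv, ← mul_inv_rev, hy, mul_comm]

theorem mu_coeff (S : Finset G) (g : G) : 
    (mu S).coeff g = open Classical in if g ∈ S then (S.card : ℝ)⁻¹ else 0 := by
  classical
  unfold mu
  rw [MonoidAlgebra.coeff_smul, MonoidAlgebra.coeff_sum, Finsupp.smul_apply, Finsupp.finsetSum_apply]
  simp only [MonoidAlgebra.coeff_single, Finsupp.single_apply]
  rw [Finset.sum_ite_eq']
  split_ifs <;> simp

/-- the total mass -/
noncomputable def aug : MonoidAlgebra ℝ G →ₐ[ℝ] ℝ := MonoidAlgebra.lift ℝ ℝ G 1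

theorem aug_eq (x : MonoidAlgebra ℝ G) : aug x = x.coeff.sum fun _ r => r := by
  unfold aug
  rw [MonoidAlgebra.lift_apply]
  simp

theorem aug_mu (S : Finset G) (hS : S.Nonempty) : aug (mu S) = 1 := by
  unfold aug mu
  rw [map_smul, map_sum]
  simp only [MonoidAlgebra.lift_single, MonoidHom.one_apply, smul_eq_mul, mul_one,
    Finset.sum_const, nsmul_eq_mul]
  have : (S.card : ℝ) ≠ 0 := by
    exact_mod_cast (Finset.card_pos.2 hS).ne'
  field_simp

theorem kesten {G : Type} [Group G] (h : ¬ Pool.Agent.TH278.DX.Amenable G) (δ : ℝ) (hδ : 0 < δ) :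
    ∃ (F : G →₀ ℝ) (T : lp (fun _ : G => ℝ) 2 →L[ℝ] lp (fun _ : G => ℝ) 2),
      (∀ g, 0 ≤ F g) ∧ (∀ g, F g⁻¹ = F g) ∧ (F.sum fun _ r => r) = 1 ∧ ‖T‖ ≤ δ ∧
      ∀ (u : lp (fun _ : G => ℝ) 2) (s : G), T u s = F.sum fun g r => r * u (s * g) := by
  classical
  obtain ⟨S, ε, hε, hS⟩ : ∃ (S : Finset G) (ε : ℝ), 0 < ε ∧
      ∀ u : L2 G, ‖u‖ = 1 → ∃ s ∈ S, ε < ‖R s u - u‖ := by
    by_contra hcon
    push Not at hcon
    exact h (amenable_of hcon)
  set S' : Finset G := insert 1 (S ∪ S.image fun g => g⁻¹) with hS'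
  have h1 : (1 : G) ∈ S' := Finset.mem_insert_self _ _
  have hsub : S ⊆ S' := fun s hs => Finset.mem_insert_of_mem (Finset.mem_union_left _ hs)
  have hsym : ∀ g, g ∈ S' → g⁻¹ ∈ S' := by
    intro g hg
    rw [hS', Finset.mem_insert, Finset.mem_union, Finset.mem_image] at hg ⊢
    rcases hg with rfl | hg | ⟨a, ha, rfl⟩
    · left; simp
    · right; right; exact ⟨g, hg, rfl⟩
    · right; left; simpa using ha
  have hsym' : ∀ g, g⁻¹ ∈ S' ↔ g ∈ S' := fun g =>
    ⟨fun hg => by simpa using hsym _ hg, hsym g⟩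
  have hlt : ‖T (mu S')‖ < 1 := by
    by_contra hcon
    obtain ⟨u, hu, hu'⟩ := almost S' h1 (not_lt.1 hcon) ε hε
    obtain ⟨s, hs, hs'⟩ := hS u hu
    exact absurd (hu' s (hsub hs)) (not_le.2 hs')
  obtain ⟨k, hk⟩ := exists_pow_lt_of_lt_one hδ hlt
  have c0 : ∀ g, 0 ≤ (mu S').coeff g := by
    intro g
    rw [mu_coeff]
    split_ifs
    · positivity
    · exact le_rfl
  have c1 : ∀ g, (mu S').coeff g⁻¹ = (mu S').coeff g := by
    intro g
    rw [mu_coeff, mu_coeff]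
    simp only [hsym']
  have pos : ∀ n : ℕ, ∀ g, 0 ≤ ((mu S') ^ n).coeff g := by
    intro n
    induction n with
    | zero =>
      intro g
      rw [pow_zero, MonoidAlgebra.one_def, MonoidAlgebra.coeff_single, Finsupp.single_apply]
      split_ifs <;> norm_num
    | succ n ih =>
      rw [pow_succ]
      exact coeff_nonneg_mul ih c0
  have sym : ∀ n : ℕ, ∀ g, ((mu S') ^ n).coeff g⁻¹ = ((mu S') ^ n).coeff g := by
    intro n
    induction n with
    | zero =>
      intro g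
      rw [pow_zero, MonoidAlgebra.one_def, MonoidAlgebra.coeff_single, Finsupp.single_apply,
        Finsupp.single_apply]
      simp only [eq_comm (a := (1 : G)), inv_eq_one]
    | succ n ih =>
      rw [pow_succ]
      exact coeff_symm_mul ih c1 (by rw [← pow_succ, ← pow_succ'])
  refine ⟨((mu S') ^ (k + 1)).coeff, T ((mu S') ^ (k + 1)), pos (k + 1), sym (k + 1), ?_, ?_,
    fun u s => T_apply _ u s⟩
  · rw [← aug_eq, map_pow, aug_mu _ ⟨1, h1⟩, one_pow]
  · rw [T_pow]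
    exact (norm_pow_le' _ (Nat.succ_pos k)).trans
      ((pow_le_pow_of_le_one (norm_nonneg _) hlt.le (Nat.le_succ k)).trans hk.le)

end Pool.Agent.TH542.J4948
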