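import Mathlib
import Pool.Agent.TH278.DX.Defs3
set_option autoImplicit false

/-! Job 5173 (helper278, MP_d7f3a3_an): the cut lemma. -/

namespace Pool.Agent.TH542.J5173

section one

variable {V : Type*} [NormedAddCommGroup V] [InnerProductSpace ℂ V] [FiniteDimensional ℂ V]
  [CompleteSpace V]

theorem spec (S : V →L[ℂ] V) : ∃ (n : ℕ) (e : OrthonormalBasis (Fin n) ℂ V) (μ : Fin n → ℝ),
    (∀ b, 0 ≤ μ b) ∧ ∀ b, (ContinuousLinearMap.adjoint S * S) (e b) = (μ b : ℂ) • e b := by
  have hsym : ((ContinuousLinearMap.adjoint S * S : V →L[ℂ] V) : V →ₗ[ℂ] V).IsSymmetric := by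
    intro x y
    show inner ℂ (ContinuousLinearMap.adjoint S (S x)) y =
      inner ℂ x (ContinuousLinearMap.adjoint S (S y))
    rw [ContinuousLinearMap.adjoint_inner_left, ContinuousLinearMap.adjoint_inner_right]
  refine ⟨Module.finrank ℂ V, hsym.eigenvectorBasis rfl, hsym.eigenvalues rfl, fun b => ?_,
    fun b => hsym.apply_eigenvectorBasis rfl b⟩
  have h1 : (ContinuousLinearMap.adjoint S) (S (hsym.eigenvectorBasis rfl b)) =
    (hsym.eigenvalues rfl b : ℂ) • hsym.eigenvectorBasis rfl b := hsym.apply_eigenvectorBasis rfl b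
  have h2 : inner ℂ (hsym.eigenvectorBasis rfl b)
      ((ContinuousLinearMap.adjoint S) (S (hsym.eigenvectorBasis rfl b))) =
      ((hsym.eigenvalues rfl b : ℝ) : ℂ) := by
    rw [h1, inner_smul_right, inner_self_eq_norm_sq_to_K,
      (hsym.eigenvectorBasis rfl).orthonormal.1 b]
    simp
  rw [ContinuousLinearMap.adjoint_inner_right, inner_self_eq_norm_sq_to_K] at h2
  have h3 : ‖S (hsym.eigenvectorBasis rfl b)‖ ^ 2 = hsym.eigenvalues rfl b := by
    apply Complex.ofReal_injective
    rw [Complex.ofReal_pow]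
    exact h2
  rw [← h3]
  positivity

omit [FiniteDimensional ℂ V] [CompleteSpace V] in
theorem pow_apply {A : V →L[ℂ] V} {v : V} {c : ℂ} (h : A v = c • v) (p : ℕ) :
    (A ^ p) v = c ^ p • v := by
  induction p with
  | zero => simp
  | succ p ih =>
    rw [pow_succ', ContinuousLinearMap.mul_apply, ih, map_smul, h, smul_smul, pow_succ]

omit [FiniteDimensional ℂ V] in
theorem norm_sq {n : ℕ} (S : V →L[ℂ] V) (e : OrthonormalBasis (Fin n) ℂ V) (μ : Fin n → ℝ)
    (h : ∀ b, (ContinuousLinearMap.adjoint S * S) (e b) = (μ b : ℂ) • e b) (φ : V) :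
    ‖S φ‖ ^ 2 = ∑ b, μ b * ‖(inner ℂ (e b) φ : ℂ)‖ ^ 2 := by
  have h1 : (inner ℂ (S φ) (S φ) : ℂ) = ∑ b, (μ b : ℂ) * (‖(inner ℂ (e b) φ : ℂ)‖ : ℂ) ^ 2 := by
    rw [← ContinuousLinearMap.adjoint_inner_left, ← e.sum_inner_mul_inner]
    refine Finset.sum_congr rfl fun b _ => ?_
    rw [ContinuousLinearMap.adjoint_inner_left, ← ContinuousLinearMap.adjoint_inner_right]
    have h2 : (ContinuousLinearMap.adjoint S) (S (e b)) = (μ b : ℂ) • e b := h b
    rw [h2, inner_smul_right, mul_assoc]
    congr 1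
    rw [← inner_conj_symm, RCLike.conj_mul]
    rfl
  rw [inner_self_eq_norm_sq_to_K] at h1
  apply Complex.ofReal_injective
  rw [Complex.ofReal_pow]
  push_cast
  exact h1

end one

theorem cut : Pool.Agent.TH278.DX.CutProp := by
  classical
  intro J K Q _ _ _ _ _ S p r hr hS
  have hspec := fun j => spec (S j)
  choose n e μ hμ he using hspec
  -- moments
  have hsum : ∀ j, ∑ b, μ j b ^ p ≤ (Fintype.card Q * Fintype.card K : ℝ) * (2 * r) ^ (2 * p) := by
    intro j
    set A : EuclideanSpace ℂ (Q × K) →L[ℂ] EuclideanSpace ℂ (Q × K) :=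
      ContinuousLinearMap.adjoint (S j) * S j with hA
    have h1 := LinearMap.trace_eq_sum_inner ((A ^ p : EuclideanSpace ℂ (Q × K) →L[ℂ]
      EuclideanSpace ℂ (Q × K)) : EuclideanSpace ℂ (Q × K) →ₗ[ℂ] EuclideanSpace ℂ (Q × K))
      (EuclideanSpace.basisFun (Q × K) ℂ)
    have h2 := LinearMap.trace_eq_sum_inner ((A ^ p : EuclideanSpace ℂ (Q × K) →L[ℂ]
      EuclideanSpace ℂ (Q × K)) : EuclideanSpace ℂ (Q × K) →ₗ[ℂ] EuclideanSpace ℂ (Q × K)) (e j)
    rw [h1] at h2
    have h3 : ∑ b, ((μ j b : ℝ) : ℂ) ^ p =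
        ∑ y : Q × K, inner ℂ (EuclideanSpace.single y (1 : ℂ))
          ((A ^ p) (EuclideanSpace.single y 1)) := by
      have h4 : ∀ b, inner ℂ (e j b) ((A ^ p) (e j b)) = ((μ j b : ℝ) : ℂ) ^ p := by
        intro b
        rw [pow_apply (he j b) p, inner_smul_right, inner_self_eq_norm_sq_to_K,
          (e j).orthonormal.1 b]
        simp
      simp only [EuclideanSpace.basisFun_apply] at h2
      rw [← Finset.sum_congr rfl fun b _ => h4 b]
      exact h2.symm
    have h5 : ∑ b, μ j b ^ p = ∑ y : Q × K, (inner ℂ ((A ^ p) (EuclideanSpace.single y 1))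
        (EuclideanSpace.single y (1 : ℂ))).re := by
      have h6 := congrArg Complex.re h3
      rw [Complex.re_sum, Complex.re_sum] at h6
      have h7 : ∀ b, (((μ j b : ℝ) : ℂ) ^ p).re = μ j b ^ p := by
        intro b
        rw [← Complex.ofReal_pow, Complex.ofReal_re]
      rw [Finset.sum_congr rfl fun b _ => h7 b] at h6
      rw [h6]
      refine Finset.sum_congr rfl fun y _ => ?_
      rw [← inner_conj_symm, Complex.conj_re]
    rw [h5]
    refine (Finset.sum_le_card_nsmul _ _ _ fun y _ => hS j y).trans ?_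
    rw [nsmul_eq_mul, Finset.card_univ, Fintype.card_prod]
    push_cast
    exact le_rfl
  -- bad indices
  have hbad : ∀ j, ((Finset.univ.filter fun b => (3 * r) ^ 2 < μ j b).card : ℝ) ≤
      (Fintype.card Q * Fintype.card K : ℝ) * (2 / 3) ^ (2 * p) := by
    intro j
    have h1 : ((Finset.univ.filter fun b => (3 * r) ^ 2 < μ j b).card : ℝ) * (3 * r) ^ (2 * p) ≤
        (Fintype.card Q * Fintype.card K : ℝ) * (2 * r) ^ (2 * p) := by
      refine le_trans ?_ (hsum j)
      calc ((Finset.univ.filter fun b => (3 * r) ^ 2 < μ j b).card : ℝ) * (3 * r) ^ (2 * p)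
          = ∑ b ∈ Finset.univ.filter fun b => (3 * r) ^ 2 < μ j b, (3 * r) ^ (2 * p) := by
            rw [Finset.sum_const, nsmul_eq_mul]
        _ ≤ ∑ b ∈ Finset.univ.filter fun b => (3 * r) ^ 2 < μ j b, μ j b ^ p := by
            refine Finset.sum_le_sum fun b hb => ?_
            rw [pow_mul]
            exact pow_le_pow_left₀ (by positivity) (Finset.mem_filter.1 hb).2.le p
        _ ≤ ∑ b, μ j b ^ p :=
            Finset.sum_le_sum_of_subset_of_nonneg (Finset.filter_subset _ _)
              fun b _ _ => pow_nonneg (hμ j b) p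
    have h2 : (2 * r) ^ (2 * p) = (2 / 3) ^ (2 * p) * (3 * r) ^ (2 * p) := by
      rw [← mul_pow]; congr 1; ring
    rw [h2, ← mul_assoc] at h1
    exact le_of_mul_le_mul_right h1 (by positivity)
  -- the subspace
  let I : Type _ := (Σ j : J, {b : Fin (n j) // (3 * r) ^ 2 < μ j b}) × K
  let v : I → EuclideanSpace ℂ Q := fun i => WithLp.toLp 2 fun x => e i.1.1 i.1.2.1 (x, i.2)
  refine ⟨Submodule.span ℂ (Set.range v), ?_, ?_⟩
  · have h1 : Module.finrank ℂ (Submodule.span ℂ (Set.range v)) ≤ Fintype.card I :=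
      finrank_range_le_card v
    have h2 : (Fintype.card I : ℝ) =
        (∑ j, ((Finset.univ.filter fun b => (3 * r) ^ 2 < μ j b).card : ℝ)) * Fintype.card K := by
      have : Fintype.card I =
          (∑ j, (Finset.univ.filter fun b => (3 * r) ^ 2 < μ j b).card) * Fintype.card K := by
        show Fintype.card ((Σ j : J, {b : Fin (n j) // (3 * r) ^ 2 < μ j b}) × K) = _
        rw [Fintype.card_prod, Fintype.card_sigma]
        congr 1
        exact Finset.sum_congr rfl fun j _ => Fintype.card_subtype _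
      rw [this]
      push_cast
      rfl
    calc (Module.finrank ℂ (Submodule.span ℂ (Set.range v)) : ℝ) ≤ Fintype.card I := by
          exact_mod_cast h1
      _ = (∑ j, ((Finset.univ.filter fun b => (3 * r) ^ 2 < μ j b).card : ℝ)) *
            Fintype.card K := h2
      _ ≤ (∑ _j : J, (Fintype.card Q * Fintype.card K : ℝ) * (2 / 3) ^ (2 * p)) *
            Fintype.card K :=
          mul_le_mul_of_nonneg_right (Finset.sum_le_sum fun j _ => hbad j) (Nat.cast_nonneg _)
      _ = Fintype.card J * Fintype.card K ^ 2 * (2 / 3) ^ (2 * p) * Fintype.card Q := by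
          rw [Finset.sum_const, nsmul_eq_mul, Finset.card_univ]; ring
  · intro j φ hφ
    have key : ∀ b, (3 * r) ^ 2 < μ j b → inner ℂ (e j b) φ = (0 : ℂ) := by
      intro b hb
      have h1 : ∀ l : K, inner ℂ (WithLp.toLp 2 fun x => e j b (x, l) : EuclideanSpace ℂ Q)
          (WithLp.toLp 2 fun x => φ (x, l) : EuclideanSpace ℂ Q) = (0 : ℂ) := by
        intro l
        exact (Submodule.mem_orthogonal _ _).1 (hφ l) _
          (Submodule.subset_span ⟨(⟨j, ⟨b, hb⟩⟩, l), rfl⟩)
      have h2 : inner ℂ (e j b) φ = ∑ l : K, inner ℂ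
          (WithLp.toLp 2 fun x => e j b (x, l) : EuclideanSpace ℂ Q)
          (WithLp.toLp 2 fun x => φ (x, l) : EuclideanSpace ℂ Q) := by
        simp only [PiLp.inner_apply]
        rw [Fintype.sum_prod_type, Finset.sum_comm]
      rw [h2]
      exact Finset.sum_eq_zero fun l _ => h1 l
    have h3 := norm_sq (S j) (e j) (μ j) (he j) φ
    have h4 : ‖S j φ‖ ^ 2 ≤ (3 * r * ‖φ‖) ^ 2 := by
      rw [h3, mul_pow, ← (e j).sum_sq_norm_inner_right φ, Finset.mul_sum]
      refine Finset.sum_le_sum fun b _ => ?_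
      by_cases hb : (3 * r) ^ 2 < μ j b
      · rw [key b hb]
        simp
      · exact mul_le_mul_of_nonneg_right (not_lt.1 hb) (by positivity)
    exact le_of_sq_le_sq h4 (by positivity)

end Pool.Agent.TH542.J5173
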